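import Pool.Agent.H19.BFL.Stmts3

/-!
# Row VCS: the choice of the level
-/

set_option autoImplicit false

namespace Pool.BFL

open Finset Real

/-- **VCS.** -/
theorem vcs_thm : VCSStmt := by
  intro B U L Good Φ Ψ e M η hL hUB hM he hG hη hη2 hcard hΦ hpair
  classical
  by_contra hcon
  push Not at hcon
  obtain ⟨d, hd⟩ : ∃ d, B = U + d := ⟨B - U, by omega⟩
  have hd1 : 1 ≤ d := by omega
  have hB1 : 1 ≤ B := by omega
  have hLBr : (1 : ℝ) ≤ (L : ℝ) * B := by
    exact_mod_cast Nat.one_le_iff_ne_zero.2 (Nat.mul_ne_zero (by omega) (by omega))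
  have hcard2 : (L : ℝ) * B ≤ 2 * (Good.card : ℝ) := by
    have h1 : (1 / 2 : ℝ) * (L * B) ≤ (1 - η) * (L * B) :=
      mul_le_mul_of_nonneg_right (by linarith) (by linarith)
    linarith
  have hcpos : (0 : ℝ) < Good.card := by linarith
  -- the members with a predecessor
  set A : Finset ℕ := Good.filter (fun k => ∃ k' ∈ Good, k' + d = k) with hA
  have hAc : (((Good \ A).card : ℕ) : ℝ) ≤ B + η * (L * B) := by
    have hsub : Good \ A ⊆ range B ∪ ((range (L * B)) \ Good).image (fun k => k + d) := by
      intro k hk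
      rw [mem_sdiff] at hk
      rw [mem_union]
      by_cases hkB : k < B
      · exact Or.inl (mem_range.2 hkB)
      · right
        rw [mem_image]
        refine ⟨k - d, ?_, by omega⟩
        rw [mem_sdiff, mem_range]
        have hk2 := mem_range.1 (hG hk.1)
        refine ⟨by omega, fun h => hk.2 ?_⟩
        rw [hA, mem_filter]
        exact ⟨hk.1, k - d, h, by omega⟩
    have h1 := (card_le_card hsub).trans (card_union_le _ _)
    have h2 : (((range (L * B)) \ Good).image (fun k => k + d)).card ≤ L * B - Good.card := by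
      refine card_image_le.trans ?_
      rw [card_sdiff_of_subset hG, card_range]
    have h3 : Good.card ≤ L * B := by
      have := card_le_card hG
      rwa [card_range] at this
    rw [card_range] at h1
    have h4 : (Good \ A).card ≤ B + (L * B - Good.card) := by omega
    have h5 : (((Good \ A).card : ℕ) : ℝ) ≤ B + ((L : ℝ) * B - Good.card) := by
      have : (((Good \ A).card : ℕ) : ℝ) ≤ ((B + (L * B - Good.card) : ℕ) : ℝ) := by
        exact_mod_cast h4
      rw [Nat.cast_add, Nat.cast_sub h3, Nat.cast_mul] at this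
      exact this
    linarith
  -- the sum over the members with a predecessor
  have hsum : ∑ k ∈ A, Φ k ≤ ∑ k ∈ Good, Ψ k + e * Good.card := by
    have h1 : ∑ k ∈ A, Φ k ≤ ∑ k ∈ A, (Ψ (k - d) + e) := by
      refine sum_le_sum fun k hk => ?_
      rw [hA, mem_filter] at hk
      obtain ⟨hk1, k', hk2, hk3⟩ := hk
      have := hpair k' hk2 k hk1 (by omega)
      have h4 : k - d = k' := by omega
      rw [h4]
      exact this
    have h2 : ∑ k ∈ A, (Ψ (k - d) + e) = ∑ k ∈ A, Ψ (k - d) + e * A.card := by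
      rw [sum_add_distrib, sum_const, nsmul_eq_mul]; ring
    have h3 : ∑ k ∈ A, Ψ (k - d) ≤ ∑ k ∈ Good, Ψ k := by
      have hinj : ∀ x ∈ A, ∀ y ∈ A, x - d = y - d → x = y := by
        intro x hx y hy hxy
        rw [hA, mem_filter] at hx hy
        obtain ⟨_, x', _, hx'⟩ := hx
        obtain ⟨_, y', _, hy'⟩ := hy
        omega
      rw [← sum_image (f := Ψ) (g := fun k => k - d) hinj]
      refine sum_le_sum_of_subset_of_nonneg ?_ (fun k hk _ => (hΦ k hk).1)
      intro x hx
      rw [mem_image] at hx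
      obtain ⟨k, hk, rfl⟩ := hx
      rw [hA, mem_filter] at hk
      obtain ⟨_, k', hk', hk''⟩ := hk
      have : k - d = k' := by omega
      rwa [this]
    have h4 : e * (A.card : ℝ) ≤ e * Good.card :=
      mul_le_mul_of_nonneg_left (by exact_mod_cast card_le_card (filter_subset _ _)) he
    linarith
  have hsum2 : ∑ k ∈ Good \ A, Φ k ≤ M * (B + η * (L * B)) := by
    refine (sum_le_card_nsmul _ _ M fun k hk => (hΦ k (mem_sdiff.1 hk).1).2).trans ?_
    rw [nsmul_eq_mul, mul_comm]
    exact mul_le_mul_of_nonneg_left hAc hM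
  have htot : ∑ k ∈ Good, (e + 2 * M * (1 / L + η)) < ∑ k ∈ Good, (Φ k - Ψ k) := by
    refine sum_lt_sum_of_nonempty ?_ fun k hk => hcon k hk
    exact card_pos.1 (by exact_mod_cast hcpos)
  rw [sum_const, nsmul_eq_mul, sum_sub_distrib] at htot
  have hsplit : ∑ k ∈ Good, Φ k = ∑ k ∈ Good \ A, Φ k + ∑ k ∈ A, Φ k :=
    (sum_sdiff (filter_subset _ _)).symm
  rw [hsplit] at htot
  have hLr : (0 : ℝ) < L := by exact_mod_cast (by omega : 0 < L)
  have h6 : M * (B + η * (L * B)) = M * (1 / L + η) * (L * B) := by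
    field_simp
  have h7 : M * (1 / L + η) * (L * B) ≤ M * (1 / L + η) * (2 * Good.card) :=
    mul_le_mul_of_nonneg_left hcard2 (by positivity)
  nlinarith

end Pool.BFL
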